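import Pool.Agent.N803.PM.FinMB

/-!
# Finiteness over extensions of `k(t)`, part C: the height of the duplication map
-/

set_option autoImplicit false
set_option linter.all false

open Polynomial

namespace Pool.Agent.N803.PM

section glob

variable {k K M : Type} [Field k] [Field K] [Algebra k[X] K] [IsFractionRing k[X] K] [Field M]
  [Algebra K M] [FiniteDimensional K M] [IsGalois K M]

/-- numerator of the duplication map -/
def ph {F : Type*} [Field F] (A B x : F) : F := x ^ 4 - 2 * A * x ^ 2 - 8 * B * x + A ^ 2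

/-- denominator of the duplication map -/
def ps {F : Type*} [Field F] (A B x : F) : F := 4 * (x ^ 3 + A * x + B)

/-- the coefficients in the resultant identities -/
noncomputable def SS {F : Type*} [Field F] (A B : F) : Finset F :=
  letI := Classical.decEq F
  {16 * A, 12, 27 * B, 5 * A, -3, 12 * B * (A ^ 3 + 8 * B ^ 2), 4 * A * (3 * A ^ 3 + 22 * B ^ 2),
    -4 * A ^ 2 * B, 4 * (4 * A ^ 3 + 27 * B ^ 2), -3 * A ^ 2 * (A ^ 3 + 8 * B ^ 2),
    2 * B * (13 * A ^ 3 + 96 * B ^ 2), A * (5 * A ^ 3 + 32 * B ^ 2), A ^ 2 * B}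

theorem exists_den (A B : K) : ∃ (N : k[X]) (d : ℕ), N ≠ 0 ∧ ∀ z ∈ SS A B, ∃ r : k[X],
    r.natDegree ≤ d ∧ algebraMap k[X] K r = algebraMap k[X] K N * z := by
  classical
  obtain ⟨N, hN⟩ := IsLocalization.exist_integer_multiples_of_finset (nonZeroDivisors k[X]) (SS A B)
  have h : ∀ z : SS A B, ∃ r : k[X], algebraMap k[X] K r = algebraMap k[X] K N * z := by
    intro z
    obtain ⟨r, hr⟩ := hN z z.2
    exact ⟨r, by rw [hr, Algebra.smul_def]⟩
  choose r hr using h
  refine ⟨N, Finset.univ.sup fun z => (r z).natDegree, nonZeroDivisors.coe_ne_zero N, fun z hz =>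
    ⟨r ⟨z, hz⟩, ?_, hr ⟨z, hz⟩⟩⟩
  exact Finset.le_sup (f := fun z => (r z).natDegree) (Finset.mem_univ (⟨z, hz⟩ : SS A B))

/-- the bound at one place -/
theorem bd_place {Γ : Type*} [LinearOrderedCommGroupWithZero Γ] (v : Valuation M Γ) (A B N : K)
    (ρ : Γ) (h : ∀ z ∈ SS A B, v (algebraMap K M (N * z)) ≤ ρ) (s : M) :
    v (algebraMap K M (N * (4 * (4 * A ^ 3 + 27 * B ^ 2)))) * (max 1 (v s)) ^ 4 ≤
      ρ * max (v (ps (algebraMap K M A) (algebraMap K M B) s))
        (v (ph (algebraMap K M A) (algebraMap K M B) s)) := by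
  have h0 : v (0 : M) ≤ ρ := by rw [map_zero]; exact zero_le'
  refine res_bd (v := v) (ρ := ρ) (s := s)
    (D := algebraMap K M (N * (4 * (4 * A ^ 3 + 27 * B ^ 2))))
    (a1 := algebraMap K M (N * (16 * A)) + 0 * s + algebraMap K M (N * 12) * s ^ 2 + 0 * s ^ 3)
    (b1 := algebraMap K M (N * (27 * B)) + algebraMap K M (N * (5 * A)) * s + 0 * s ^ 2 +
      algebraMap K M (N * (-3)) * s ^ 3)
    (a2 := algebraMap K M (N * (12 * B * (A ^ 3 + 8 * B ^ 2))) +
      algebraMap K M (N * (4 * A * (3 * A ^ 3 + 22 * B ^ 2))) * s +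
      algebraMap K M (N * (-4 * A ^ 2 * B)) * s ^ 2 +
      algebraMap K M (N * (4 * (4 * A ^ 3 + 27 * B ^ 2))) * s ^ 3)
    (b2 := algebraMap K M (N * (-3 * A ^ 2 * (A ^ 3 + 8 * B ^ 2))) +
      algebraMap K M (N * (2 * B * (13 * A ^ 3 + 96 * B ^ 2))) * s +
      algebraMap K M (N * (A * (5 * A ^ 3 + 32 * B ^ 2))) * s ^ 2 +
      algebraMap K M (N * (A ^ 2 * B)) * s ^ 3)
    (cub s (h _ (by simp [SS])) h0 (h _ (by simp [SS])) h0)
    (cub s (h _ (by simp [SS])) (h _ (by simp [SS])) h0 (h _ (by simp [SS])))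
    (cub s (h _ (by simp [SS])) (h _ (by simp [SS])) (h _ (by simp [SS])) (h _ (by simp [SS])))
    (cub s (h _ (by simp [SS])) (h _ (by simp [SS])) (h _ (by simp [SS])) (h _ (by simp [SS])))
    ?_ ?_
  · simp only [ph, ps, map_mul, map_add, map_pow, map_neg, map_ofNat]
    ring
  · simp only [ph, ps, map_mul, map_add, map_pow, map_neg, map_ofNat]
    ring

theorem ph_map (A B : K) (σ : M ≃ₐ[K] M) (x : M) :
    ph (algebraMap K M A) (algebraMap K M B) (σ x) =
      σ (ph (algebraMap K M A) (algebraMap K M B) x) := by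
  simp only [ph, map_add, map_sub, map_mul, map_pow, map_ofNat, AlgEquiv.commutes]

theorem ps_map (A B : K) (σ : M ≃ₐ[K] M) (x : M) :
    ps (algebraMap K M A) (algebraMap K M B) (σ x) =
      σ (ps (algebraMap K M A) (algebraMap K M B) x) := by
  simp only [ps, map_add, map_mul, map_pow, map_ofNat, AlgEquiv.commutes]

theorem QQ_eq (p q : M) (hq : q ≠ 0) (c c' : K) (hc' : c' ≠ 0) (P' : k[X][X])
    (hP' : P'.map (inc k K M) = C (algebraMap K M c') * FF K (p / q)) :
    C ((algebraMap K M c) ^ 4) * ∏ σ : M ≃ₐ[K] M, (C (σ q) * X - C (σ p)) =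
      C (algebraMap K M (c ^ 4 * Algebra.norm K q / c')) * P'.map (inc k K M) := by
  have h1 : ∏ σ : M ≃ₐ[K] M, (C (σ q) * X - C (σ p)) =
      C (algebraMap K M (Algebra.norm K q)) * FF K (p / q) := by
    rw [Algebra.norm_eq_prod_automorphisms, map_prod, FF, ← Finset.prod_mul_distrib]
    refine Finset.prod_congr rfl fun σ _ => ?_
    have hσ : σ q ≠ 0 := by simpa using hq
    rw [map_div₀, mul_sub, ← C_mul, mul_div_cancel₀ _ hσ]
  have hc : algebraMap K M c' ≠ 0 := by simpa using hc'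
  have e : algebraMap K M (c ^ 4 * Algebra.norm K q / c') * algebraMap K M c' =
      (algebraMap K M c) ^ 4 * algebraMap K M (Algebra.norm K q) := by
    rw [map_div₀, div_mul_cancel₀ _ hc, map_mul, map_pow]
  rw [h1, hP', ← mul_assoc, ← mul_assoc, ← C_mul, ← C_mul, e]

/-- the inequality of the heights -/
theorem ht_dup (A B : K) (h2 : (2 : K) ≠ 0) (hD : 4 * A ^ 3 + 27 * B ^ 2 ≠ 0) :
    ∃ c0 : ℕ, ∀ x : M, ps (algebraMap K M A) (algebraMap K M B) x ≠ 0 →
      4 * HH k K x ≤ HH k K (ph (algebraMap K M A) (algebraMap K M B) x /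
        ps (algebraMap K M A) (algebraMap K M B) x) + c0 := by
  classical
  obtain ⟨N, d, hN0, hN⟩ := exists_den (k := k) A B
  set n := Fintype.card (M ≃ₐ[K] M) with hn
  refine ⟨d * n, fun x hx => ?_⟩
  set p := ph (algebraMap K M A) (algebraMap K M B) x with hp
  set q := ps (algebraMap K M A) (algebraMap K M B) x with hq
  set Dl : K := algebraMap k[X] K N * (4 * (4 * A ^ 3 + 27 * B ^ 2)) with hDl
  have h4 : (4 : K) ≠ 0 := by
    have : (4 : K) = 2 * 2 := by norm_num
    rw [this]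
    exact mul_ne_zero h2 h2
  have hDl0 : Dl ≠ 0 := mul_ne_zero (by simpa using hN0) (mul_ne_zero h4 hD)
  have hnq : Algebra.norm K q ≠ 0 := by
    rw [Ne, Algebra.norm_eq_zero_iff]
    exact hx
  set κ : K := cc k K x ^ 4 * Algebra.norm K q / cc k K (p / q) with hκ
  have hκ0 : κ ≠ 0 := div_ne_zero (mul_ne_zero (pow_ne_zero _ (cc_ne x)) hnq) (cc_ne _)
  -- the estimate at one place
  have key : ∀ (V : ValuationSubring M) (ρ μ : V.ValueGroup),
      (∀ z ∈ SS A B, V.valuation (algebraMap K M (algebraMap k[X] K N * z)) ≤ ρ) →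
      GN V.valuation ((PP k K x).map (inc k K M)) μ →
      ∃ j, μ ^ 4 * V.valuation (algebraMap K M Dl) ^ n ≤ ρ ^ n *
        (V.valuation (algebraMap K M κ) * V.valuation (inc k K M ((PP k K (p / q)).coeff j))) := by
    intro V ρ μ h1 h2
    rw [PP_map] at h2
    obtain ⟨j, hj⟩ := gn_main (fun σ : M ≃ₐ[K] M => σ x) (fun σ => σ p) (fun σ => σ q)
      (algebraMap K M (cc k K x)) μ (V.valuation (algebraMap K M Dl)) ρ h2 (by
        intro σ
        have := bd_place V.valuation A B (algebraMap k[X] K N) ρ h1 (σ x)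
        rw [ph_map, ps_map] at this
        exact this)
    refine ⟨j, ?_⟩
    rw [QQ_eq (k := k) p q hx (cc k K x) (cc k K (p / q)) (cc_ne _) (PP k K (p / q)) (PP_map _)] at hj
    rw [coeff_C_mul, coeff_map, V.valuation.map_mul
      (algebraMap K M (cc k K x ^ 4 * Algebra.norm K q / cc k K (p / q)))] at hj
    exact hj
  -- the finite places
  obtain ⟨e, he⟩ := poly_of_finite (M := M) (k := k) (Dl ^ n / κ) (by
    intro V hV1 hV2
    obtain ⟨j, hj⟩ := key V 1 1 (by
      intro z hz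
      obtain ⟨r, -, hr⟩ := hN z hz
      rw [← hr]
      exact hV1 r) (hV2 x)
    rw [one_pow, one_pow, one_mul, one_mul] at hj
    have hκv : 0 < V.valuation (algebraMap K M κ) :=
      zero_lt_iff.2 ((Valuation.ne_zero_iff _).2 (by simpa using hκ0))
    rw [map_div₀, map_div₀, div_le_one₀ hκv, map_pow, map_pow]
    refine hj.trans ?_
    calc _ ≤ V.valuation (algebraMap K M κ) * 1 := mul_le_mul' le_rfl (hV1 _)
      _ = _ := mul_one _)
  have he0 : e ≠ 0 := by
    rintro rfl
    rw [map_zero] at he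
    exact div_ne_zero (pow_ne_zero _ hDl0) hκ0 he.symm
  -- the infinite place
  obtain ⟨V, hV1, hV2⟩ := inf_place (k := k) (K := K) (M := M)
  set T := V.valuation (inc k K M X) with hT
  have hTd : ∀ (r : k[X]) (m : ℕ), r.natDegree ≤ m → V.valuation (inc k K M r) ≤ T ^ m := by
    intro r m hr
    by_cases hr0 : r = 0
    · rw [hr0, map_zero, map_zero]; exact zero_le'
    · rw [hV2 r hr0]
      exact pow_le_pow_right₀ hV1.le hr
  obtain ⟨j, hj⟩ := key V (T ^ d) (T ^ (HH k K x)) (by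
    intro z hz
    obtain ⟨r, hr1, hr⟩ := hN z hz
    rw [← hr]
    exact hTd r d hr1) (by
    refine ⟨fun i => by rw [coeff_map]; exact hTd _ _ (coeff_le x i), ?_⟩
    obtain ⟨i, hi, hi'⟩ := Finset.exists_mem_eq_sup (PP k K x).support
      (support_nonempty.2 (PP_ne x)) (fun i => ((PP k K x).coeff i).natDegree)
    refine ⟨i, ?_⟩
    rw [coeff_map, hV2 _ (mem_support_iff.1 hi)]
    congr 1
    exact hi'.symm)
  have hκe : V.valuation (algebraMap K M κ) ≤ V.valuation (algebraMap K M Dl) ^ n := by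
    have h1 : Dl ^ n = algebraMap k[X] K e * κ := by
      rw [he, div_mul_cancel₀ _ hκ0]
    have h2 : V.valuation (algebraMap K M Dl) ^ n =
        V.valuation (inc k K M e) * V.valuation (algebraMap K M κ) := by
      rw [← map_pow, ← map_pow, h1, map_mul, map_mul]
      rfl
    rw [h2, hV2 e he0]
    calc _ = 1 * V.valuation (algebraMap K M κ) := (one_mul _).symm
      _ ≤ _ := mul_le_mul' (one_le_pow₀ hV1.le) le_rfl
  have hfin : T ^ (4 * HH k K x) * V.valuation (algebraMap K M Dl) ^ n ≤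
      T ^ (HH k K (p / q) + d * n) * V.valuation (algebraMap K M Dl) ^ n := by
    calc T ^ (4 * HH k K x) * V.valuation (algebraMap K M Dl) ^ n
        = (T ^ (HH k K x)) ^ 4 * V.valuation (algebraMap K M Dl) ^ n := by
          rw [← pow_mul, mul_comm 4]
      _ ≤ (T ^ d) ^ n * (V.valuation (algebraMap K M κ) *
            V.valuation (inc k K M ((PP k K (p / q)).coeff j))) := hj
      _ ≤ (T ^ d) ^ n * (V.valuation (algebraMap K M Dl) ^ n * T ^ (HH k K (p / q))) :=
          mul_le_mul' le_rfl (mul_le_mul' hκe (hTd _ _ (coeff_le _ _)))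
      _ = T ^ (HH k K (p / q) + d * n) * V.valuation (algebraMap K M Dl) ^ n := by
          rw [pow_add, ← pow_mul, mul_comm (V.valuation _ ^ n), ← mul_assoc, mul_comm (T ^ (d * n))]
  have hDv : 0 < V.valuation (algebraMap K M Dl) ^ n :=
    pow_pos (zero_lt_iff.2 ((Valuation.ne_zero_iff _).2 (by simpa using hDl0))) n
  have hfin2 := (mul_le_mul_iff_left₀ hDv).1 hfin
  exact (pow_le_pow_iff_right₀ hV1).1 hfin2

/-- A group with a height such that each point is twice a point, is finite. -/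
theorem fin_of_height {G : Type*} [AddCommGroup G] (h : G → ℕ) (C : ℕ)
    (hfin : {P | h P ≤ C}.Finite) (h1 : ∀ R : G, 4 * h R ≤ h (R + R) + C)
    (hdiv : ∀ Q : G, ∃ R : G, Q = R + R) : Finite G := by
  choose φ hφ using hdiv
  have dec : ∀ Q, 4 * h (φ Q) ≤ h Q + C := by
    intro Q
    have e1 := h1 (φ Q)
    rwa [← hφ Q] at e1
  have inB : ∀ Q, h Q ≤ C → h (φ Q) ≤ C := fun Q hQ => by
    have := dec Q
    omega
  have out : ∀ Q, C < h Q → h (φ Q) < h Q := fun Q hQ => by
    have := dec Q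
    omega
  have ev : ∀ n Q, h Q ≤ n → ∃ i, h (φ^[i] Q) ≤ C := by
    intro n
    induction n using Nat.strong_induction_on with
    | _ n ih =>
      intro Q hQ
      by_cases hC : h Q ≤ C
      · exact ⟨0, hC⟩
      · have h3 := out Q (by omega)
        obtain ⟨i, hi⟩ := ih (h (φ Q)) (by omega) (φ Q) le_rfl
        exact ⟨i + 1, hi⟩
  have tw : ∀ i Q, Q = 2 ^ i • φ^[i] Q := by
    intro i
    induction i with
    | zero => intro Q; rw [pow_zero, one_nsmul]; rfl
    | succ i ih =>
      intro Q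
      rw [Function.iterate_succ_apply, pow_succ, mul_nsmul, ← ih (φ Q), two_nsmul, ← hφ]
  have grow : ∀ j P, C < h P → h P ≤ h (2 ^ j • P) ∧ C < h (2 ^ j • P) := by
    intro j
    induction j with
    | zero => intro P hP; rw [pow_zero, one_nsmul]; exact ⟨le_rfl, hP⟩
    | succ j ih =>
      intro P hP
      obtain ⟨e1, e2⟩ := ih P hP
      have e3 : 2 ^ (j + 1) • P = 2 ^ j • P + 2 ^ j • P := by
        rw [pow_succ, mul_nsmul', two_nsmul, nsmul_add]
      have e4 := h1 (2 ^ j • P)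
      rw [e3]
      omega
  have grow' : ∀ j P, C < h P → h P < h (2 ^ (j + 1) • P) := by
    intro j P hP
    obtain ⟨e1, e2⟩ := grow j P hP
    have e3 : 2 ^ (j + 1) • P = 2 ^ j • P + 2 ^ j • P := by
      rw [pow_succ, mul_nsmul', two_nsmul, nsmul_add]
    have e4 := h1 (2 ^ j • P)
    rw [e3]
    omega
  have all : ∀ Q, h Q ≤ C := by
    intro Q
    by_contra hQ
    push Not at hQ
    obtain ⟨i0, hi0⟩ := ev (h Q) Q le_rfl
    have stay : ∀ i, h (φ^[i0 + i] Q) ≤ C := by
      intro i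
      induction i with
      | zero => exact hi0
      | succ i ih =>
        rw [← add_assoc, Function.iterate_succ_apply']
        exact inB _ ih
    have := hfin.to_subtype
    obtain ⟨i, j, hij, he⟩ := Finite.exists_ne_map_eq_of_infinite
      (fun i : ℕ => (⟨φ^[i0 + i] Q, stay i⟩ : {P | h P ≤ C}))
    have he' : φ^[i0 + i] Q = φ^[i0 + j] Q := congrArg Subtype.val he
    wlog hlt : i < j generalizing i j
    · exact this j i (Ne.symm hij) he.symm he'.symm (by omega)
    obtain ⟨r, hr⟩ : ∃ r, j = i + (r + 1) := ⟨j - i - 1, by omega⟩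
    have e1 := tw (i0 + i) Q
    have e2 := tw (i0 + j) Q
    have e3 : 2 ^ (r + 1) • Q = Q := by
      conv_rhs => rw [e2, ← he']
      conv_lhs => rw [e1]
      rw [← mul_nsmul, ← pow_add, hr]
      congr 2
      ring
    have e6 := grow' r Q hQ
    rw [e3] at e6
    exact lt_irrefl _ e6
  have huniv : {P | h P ≤ C} = Set.univ := Set.eq_univ_of_forall all
  rw [huniv] at hfin
  exact Set.finite_univ_iff.1 hfin

end glob

end Pool.Agent.N803.PM
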