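import Pool.Agent.N273.PP.Fin
import Pool.Agent.N874.PM.Stm
import Pool.Agent.N803.PM.FinMC

/-!
# Project PM, part FINM: finiteness of `E(M)` from divisibility by two

`M` is a finite Galois extension of `k(t)`, `k` finite of characteristic different from 2 and 3.
-/

set_option autoImplicit false
set_option linter.all false

namespace Pool.Agent.N803.PM

open Polynomial WeierstrassCurve WeierstrassCurve.Affine Pool.Agent.TH115.GD Pool.Agent.N874.PP
open scoped Classical

/-- the height of a point -/
noncomputable def hw (k K : Type) {M : Type} [Field k] [Field K] [Algebra k[X] K]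
    [IsFractionRing k[X] K] [Field M] [Algebra K M] [FiniteDimensional K M] [IsGalois K M]
    {A B : M} : Pt (sW A B) M → ℕ
  | .zero => 0
  | .some x _ _ => HH k K x

theorem finm : Pool.Agent.N874.PM.S_FINM := by
  intro k K M _ _ _ _ _ _ _ _ _ A B h6 hD hdiv
  have inj := IsFractionRing.injective k[X] K
  have h2 : (2 : k) ≠ 0 := by
    intro h
    apply h6
    have : (6 : k) = 2 * 3 := by norm_num
    rw [this, h, zero_mul]
  have h2K : (2 : K) ≠ 0 := by
    have : algebraMap k[X] K (C 2) = 2 := by rw [C_ofNat]; exact map_ofNat _ _
    rw [← this]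
    simpa using h2
  have h2M : (2 : M) ≠ 0 := by
    have : algebraMap K M 2 = 2 := map_ofNat _ _
    rw [← this]
    simpa using h2K
  set a : M := algebraMap K M A with ha
  set b : M := algebraMap K M B with hb
  -- the zeros of the cubic polynomial
  obtain ⟨c0, hc0⟩ : ∃ c0 : ℕ, ∀ x : M, x ^ 3 + a * x + b = 0 → HH k K x ≤ c0 := by
    have hp : (X ^ 3 + C a * X + C b : M[X]) ≠ 0 := by
      intro h0
      have := congrArg (fun p : M[X] => p.coeff 3) h0
      simp [coeff_X, coeff_C] at this
    refine ⟨(X ^ 3 + C a * X + C b : M[X]).roots.toFinset.sup (HH k K), fun x hx => ?_⟩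
    apply Finset.le_sup (f := HH k K)
    rw [Multiset.mem_toFinset, mem_roots hp, IsRoot.def]
    simpa using hx
  obtain ⟨c1, hc1⟩ := ht_dup (k := k) (M := M) A B h2K hD
  have dbl : ∀ R : Pt (sW a b) M, 4 * hw k K R ≤ hw k K (R + R) + (c1 + 4 * c0) := by
    intro R
    rcases R with _ | ⟨x, y, hxy⟩
    · exact Nat.zero_le _
    · by_cases hy : y = 0
      · have he := Pool.Agent.N273.PP.sW_eq hxy
        rw [hy] at he
        have h3 := hc0 x (by rw [← he]; ring)
        show 4 * HH k K x ≤ _
        omega
      · obtain ⟨x', y', h', e1, e2⟩ := Pool.Agent.N273.PP.sW_dbl h2M hxy hy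
        rw [e1]
        show 4 * HH k K x ≤ HH k K x' + (c1 + 4 * c0)
        have h3 := hc1 x (by
          rw [← ha, ← hb]
          show 4 * (x ^ 3 + a * x + b) ≠ 0
          rw [← Pool.Agent.N273.PP.sW_eq hxy]
          have h4 : (4 : M) ≠ 0 := by
            have : (4 : M) = 2 * 2 := by norm_num
            rw [this]
            exact mul_ne_zero h2M h2M
          exact mul_ne_zero h4 (pow_ne_zero _ hy))
        have h4 : ph (algebraMap K M A) (algebraMap K M B) x /
            ps (algebraMap K M A) (algebraMap K M B) x = x' := by
          rw [e2]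
          rfl
        rw [h4] at h3
        omega
  apply fin_of_height (hw k K) (c1 + 4 * c0) _ dbl
  · intro Q
    obtain ⟨R, hR⟩ := hdiv Q
    refine ⟨R, ?_⟩
    rw [hR, two_nsmul]
  · -- finiteness
    have hfx := HH_fin (k := k) (K := K) (M := M) (c1 + 4 * c0)
    apply Set.Finite.of_finite_fibers
      (fun P : Pt (sW a b) M =>
        (match P with | .zero => none | .some x _ _ => some x : Option M))
    · apply ((hfx.image some).union (Set.finite_singleton none)).subset
      rintro o ⟨P, hP, rfl⟩
      rcases P with _ | ⟨x, y, hxy⟩
      · right; rfl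
      · left; exact ⟨x, hP, rfl⟩
    · intro o ho
      rcases o with _ | x
      · apply (Set.finite_singleton (0 : Pt (sW a b) M)).subset
        rintro P ⟨-, hP⟩
        rcases P with _ | ⟨x, y, hxy⟩
        · rfl
        · cases hP
      · have hroots : {y : M | y ^ 2 = x ^ 3 + a * x + b}.Finite := by
          set c := x ^ 3 + a * x + b with hc
          by_cases hy : ∃ y0 : M, y0 ^ 2 = c
          · obtain ⟨y0, hy0⟩ := hy
            apply (Set.toFinite ({y0, -y0} : Set M)).subset
            intro y hy
            have : y ^ 2 = y0 ^ 2 := by rw [hy0]; exact hy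
            rcases sq_eq_sq_iff_eq_or_eq_neg.1 this with h | h
            · left; exact h
            · right; exact h
          · apply Set.finite_empty.subset
            intro y hy'
            exact hy ⟨y, hy'⟩
        apply Set.Finite.of_finite_image (f := fun P : Pt (sW a b) M =>
          (match P with | .zero => 0 | .some _ y _ => y : M))
        · apply hroots.subset
          rintro y ⟨P, ⟨-, hP⟩, rfl⟩
          rcases P with _ | ⟨x', y, hxy⟩
          · cases hP
          · have hx' : x' = x := Option.some.inj hP
            subst hx'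
            exact Pool.Agent.N273.PP.sW_eq hxy
        · rintro P ⟨-, hP⟩ P' ⟨-, hP'⟩ hyy
          rcases P with _ | ⟨x1, y1, hxy1⟩
          · cases hP
          · rcases P' with _ | ⟨x2, y2, hxy2⟩
            · cases hP'
            · have e1 : x1 = x := Option.some.inj hP
              have e2 : x2 = x := Option.some.inj hP'
              have e3 : y1 = y2 := hyy
              subst e1 e3
              subst e2
              rfl

end Pool.Agent.N803.PM
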