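import Mathlib

/-!
# Finiteness over extensions of `k(t)`, part A: Gauss norms and resultants
-/

set_option autoImplicit false
set_option linter.all false

open Polynomial

namespace Pool.Agent.N803.PM

section val

variable {M Γ : Type*} [Field M] [LinearOrderedCommGroupWithZero Γ] (v : Valuation M Γ)

/-- The Gauss norm of `F` is `μ`. -/
def GN (F : Polynomial M) (μ : Γ) : Prop := (∀ i, v (F.coeff i) ≤ μ) ∧ ∃ i, v (F.coeff i) = μ

variable {v}

theorem gn_unique {F : Polynomial M} {μ ν : Γ} (h : GN v F μ) (h' : GN v F ν) : μ = ν := by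
  obtain ⟨i, hi⟩ := h.2
  obtain ⟨j, hj⟩ := h'.2
  exact le_antisymm (hi ▸ h'.1 i) (hj ▸ h.1 j)

theorem gn_smul {F : Polynomial M} {μ : Γ} (c : M) (h : GN v F μ) : GN v (C c * F) (v c * μ) := by
  refine ⟨fun i => ?_, ?_⟩
  · rw [coeff_C_mul, map_mul]
    exact mul_le_mul_right (h.1 i) _
  · obtain ⟨i, hi⟩ := h.2
    exact ⟨i, by rw [coeff_C_mul, map_mul, hi]⟩

theorem gn_one : GN v (1 : Polynomial M) 1 := by
  refine ⟨fun i => ?_, 0, by simp⟩
  rw [coeff_one]
  split_ifs <;> simp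

theorem gn_zero : GN v (0 : Polynomial M) 0 := ⟨fun i => by simp, 0, by simp⟩

theorem gn_pos {F : Polynomial M} {μ : Γ} (hF : F ≠ 0) (h : GN v F μ) : 0 < μ := by
  have : v (F.coeff F.natDegree) ≠ 0 := by
    rw [Valuation.ne_zero_iff]
    exact fun h0 => hF (leadingCoeff_eq_zero.1 h0)
  exact lt_of_lt_of_le (zero_lt_iff.2 this) (h.1 _)

theorem gn_lin {F : Polynomial M} {μ : Γ} (a b : M) (h : GN v F μ) :
    GN v ((C a * X - C b) * F) (max (v a) (v b) * μ) := by
  by_cases hF : F = 0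
  · subst hF
    have : μ = 0 := gn_unique h gn_zero
    rw [this, mul_zero, mul_zero]
    exact gn_zero
  have hμ := gn_pos hF h
  have c0 : ((C a * X - C b) * F).coeff 0 = -(b * F.coeff 0) := by
    simp [sub_mul, mul_assoc]
  have c1 : ∀ i, ((C a * X - C b) * F).coeff (i + 1) = a * F.coeff i - b * F.coeff (i + 1) := by
    intro i
    rw [sub_mul, coeff_sub, mul_assoc, coeff_C_mul, coeff_X_mul, coeff_C_mul]
  have hb : ∀ i, v (b * F.coeff i) ≤ max (v a) (v b) * μ := fun i => by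
    rw [map_mul]
    exact mul_le_mul' (le_max_right _ _) (h.1 i)
  have ha : ∀ i, v (a * F.coeff i) ≤ max (v a) (v b) * μ := fun i => by
    rw [map_mul]
    exact mul_le_mul' (le_max_left _ _) (h.1 i)
  refine ⟨fun i => ?_, ?_⟩
  · rcases i with _ | i
    · rw [c0, Valuation.map_neg]
      exact hb 0
    · rw [c1]
      exact (v.map_sub _ _).trans (max_le (ha i) (hb (i + 1)))
  · rcases le_or_gt (v b) (v a) with hab | hab
    · by_cases ha0 : a = 0
      · subst ha0
        have hb0 : b = 0 := by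
          rw [map_zero] at hab
          exact (Valuation.zero_iff v).1 (le_zero_iff.1 hab)
        subst hb0
        exact ⟨0, by simp⟩
      have hva : 0 < v a := zero_lt_iff.2 ((Valuation.ne_zero_iff v).2 ha0)
      -- the largest index where the maximum is attained
      obtain ⟨i, hi, hmax⟩ : ∃ i, v (F.coeff i) = μ ∧ v (F.coeff (i + 1)) < μ := by
        by_contra hcon
        push Not at hcon
        obtain ⟨i0, hi0⟩ := h.2
        have hall : ∀ j, v (F.coeff (i0 + j)) = μ := by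
          intro j
          induction j with
          | zero => exact hi0
          | succ j ih => exact le_antisymm (h.1 _) (hcon _ ih)
        have h1 := hall (F.natDegree + 1)
        rw [coeff_eq_zero_of_natDegree_lt (by omega), map_zero] at h1
        exact hμ.ne h1
      refine ⟨i + 1, ?_⟩
      rw [c1, max_eq_left hab]
      have h1 : v (b * F.coeff (i + 1)) < v (a * F.coeff i) := by
        rw [map_mul, map_mul, hi]
        calc v b * v (F.coeff (i + 1)) ≤ v a * v (F.coeff (i + 1)) := mul_le_mul' hab le_rfl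
          _ < v a * μ := by
            exact (mul_lt_mul_iff_right₀ hva).2 hmax
      rw [Valuation.map_sub_eq_of_lt_left v h1, map_mul, hi]
    · obtain ⟨i, hi⟩ := h.2
      have hvb : 0 < v b := lt_of_le_of_lt zero_le' hab
      refine ⟨i, ?_⟩
      rw [max_eq_right hab.le]
      rcases i with _ | i
      · rw [c0, Valuation.map_neg, map_mul, hi]
      · rw [c1]
        have h1 : v (a * F.coeff i) < v (b * F.coeff (i + 1)) := by
          rw [map_mul, map_mul, hi]
          calc v a * v (F.coeff i) ≤ v a * μ := mul_le_mul' le_rfl (h.1 i)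
            _ < v b * μ := (mul_lt_mul_iff_left₀ hμ).2 hab
        rw [Valuation.map_sub_eq_of_lt_right v h1, map_mul, hi]

theorem gn_prod {ι : Type*} (S : Finset ι) (a b : ι → M) :
    GN v (∏ i ∈ S, (C (a i) * X - C (b i))) (∏ i ∈ S, max (v (a i)) (v (b i))) := by
  classical
  induction S using Finset.induction_on with
  | empty => simpa using gn_one
  | insert i S hi ih =>
    rw [Finset.prod_insert hi, Finset.prod_insert hi]
    exact gn_lin _ _ ih

/-- The main estimate. -/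
theorem gn_main {ι : Type*} [Fintype ι] (s p q : ι → M) (c : M) (μ τ ρ : Γ)
    (hF : GN v (C c * ∏ i, (X - C (s i))) μ)
    (h : ∀ i, τ * (max 1 (v (s i))) ^ 4 ≤ ρ * max (v (q i)) (v (p i))) :
    ∃ j, μ ^ 4 * τ ^ (Fintype.card ι) ≤
      ρ ^ (Fintype.card ι) * v ((C (c ^ 4) * ∏ i, (C (q i) * X - C (p i))).coeff j) := by
  have h1 : GN v (C c * ∏ i, (X - C (s i))) (v c * ∏ i, max 1 (v (s i))) := by
    have := gn_smul c (gn_prod (v := v) Finset.univ (fun _ : ι => (1 : M)) s)
    simpa using this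
  have h2 := gn_unique hF h1
  have h3 := gn_smul (c ^ 4) (gn_prod (v := v) Finset.univ q p)
  obtain ⟨j, hj⟩ := h3.2
  refine ⟨j, ?_⟩
  rw [hj, h2, map_pow, mul_pow]
  have h4 : ∏ i : ι, (τ * (max 1 (v (s i))) ^ 4) ≤ ∏ i : ι, (ρ * max (v (q i)) (v (p i))) :=
    Finset.prod_le_prod' fun i _ => h i
  rw [Finset.prod_mul_distrib, Finset.prod_mul_distrib, Finset.prod_const, Finset.prod_const,
    Finset.prod_pow] at h4
  calc v c ^ 4 * (∏ i, max 1 (v (s i))) ^ 4 * τ ^ (Fintype.card ι)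
      = v c ^ 4 * (τ ^ (Fintype.card ι) * (∏ i, max 1 (v (s i))) ^ 4) := by
        rw [mul_assoc, mul_comm (τ ^ _)]
    _ ≤ v c ^ 4 * (ρ ^ (Fintype.card ι) * ∏ i, max (v (q i)) (v (p i))) :=
        mul_le_mul' le_rfl h4
    _ = _ := by rw [mul_left_comm]

theorem cub {ρ : Γ} {c0 c1 c2 c3 : M} (s : M) (h0 : v c0 ≤ ρ) (h1 : v c1 ≤ ρ) (h2 : v c2 ≤ ρ)
    (h3 : v c3 ≤ ρ) : v (c0 + c1 * s + c2 * s ^ 2 + c3 * s ^ 3) ≤ ρ * (max 1 (v s)) ^ 3 := by
  set m := max 1 (v s) with hm
  have m1 : 1 ≤ m := le_max_left _ _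
  have ms : v s ≤ m := le_max_right _ _
  have e0 : v c0 ≤ ρ * m ^ 3 := by
    calc v c0 = v c0 * 1 := (mul_one _).symm
      _ ≤ ρ * m ^ 3 := mul_le_mul' h0 (one_le_pow₀ m1)
  have e1 : v (c1 * s) ≤ ρ * m ^ 3 := by
    rw [map_mul]
    refine mul_le_mul' h1 (ms.trans ?_)
    calc m = m ^ 1 := (pow_one m).symm
      _ ≤ m ^ 3 := pow_le_pow_right₀ m1 (by norm_num)
  have e2 : v (c2 * s ^ 2) ≤ ρ * m ^ 3 := by
    rw [map_mul, map_pow]
    refine mul_le_mul' h2 ((pow_le_pow_left₀ zero_le' ms 2).trans ?_)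
    exact pow_le_pow_right₀ m1 (by norm_num)
  have e3 : v (c3 * s ^ 3) ≤ ρ * m ^ 3 := by
    rw [map_mul, map_pow]
    exact mul_le_mul' h3 (pow_le_pow_left₀ zero_le' ms 3)
  exact (v.map_add _ _).trans (max_le ((v.map_add _ _).trans (max_le
    ((v.map_add _ _).trans (max_le e0 e1)) e2)) e3)

/-- From the resultant identities to the bound needed in `gn_main`. -/
theorem res_bd {ρ : Γ} {s p q D a1 b1 a2 b2 : M} (ha1 : v a1 ≤ ρ * (max 1 (v s)) ^ 3)
    (hb1 : v b1 ≤ ρ * (max 1 (v s)) ^ 3) (ha2 : v a2 ≤ ρ * (max 1 (v s)) ^ 3)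
    (hb2 : v b2 ≤ ρ * (max 1 (v s)) ^ 3) (e1 : D = a1 * p + b1 * q)
    (e2 : D * s ^ 7 = a2 * p + b2 * q) :
    v D * (max 1 (v s)) ^ 4 ≤ ρ * max (v q) (v p) := by
  have key : v D * (max 1 (v s)) ^ 7 ≤ ρ * (max 1 (v s)) ^ 3 * max (v q) (v p) := by
    rcases le_total (v s) 1 with h | h
    · have hm : max 1 (v s) = 1 := max_eq_left h
      rw [hm] at ha1 hb1 ⊢
      rw [one_pow, mul_one, e1]
      refine (v.map_add _ _).trans (max_le ?_ ?_)
      · rw [map_mul]; exact mul_le_mul' ha1 (le_max_right _ _)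
      · rw [map_mul]; exact mul_le_mul' hb1 (le_max_left _ _)
    · have hm : max 1 (v s) = v s := max_eq_right h
      rw [hm] at ha2 hb2 ⊢
      rw [← map_pow v s 7, ← map_mul, e2]
      refine (v.map_add _ _).trans (max_le ?_ ?_)
      · rw [map_mul]; exact mul_le_mul' ha2 (le_max_right _ _)
      · rw [map_mul]; exact mul_le_mul' hb2 (le_max_left _ _)
  have hm3 : 0 < (max 1 (v s)) ^ 3 := pow_pos (lt_of_lt_of_le zero_lt_one (le_max_left _ _)) 3
  have h2 : (max 1 (v s)) ^ 3 * (v D * (max 1 (v s)) ^ 4) ≤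
      (max 1 (v s)) ^ 3 * (ρ * max (v q) (v p)) := by
    calc (max 1 (v s)) ^ 3 * (v D * (max 1 (v s)) ^ 4) = v D * (max 1 (v s)) ^ 7 := by
          rw [mul_left_comm, ← pow_add]
      _ ≤ ρ * (max 1 (v s)) ^ 3 * max (v q) (v p) := key
      _ = _ := by rw [mul_assoc, mul_left_comm]
  exact (mul_le_mul_iff_right₀ hm3).1 h2

end val

/-! ### Valuations of an extension field -/

theorem exists_val {R' M : Type*} [CommRing R'] [Field M] (f : R' →+* M)
    (hf : Function.Injective f) (m : Ideal R') (hm : m.IsMaximal) :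
    ∃ B : ValuationSubring M, (∀ r, B.valuation (f r) ≤ 1) ∧
      (∀ r ∈ m, B.valuation (f r) < 1) ∧ ∀ r, r ∉ m → B.valuation (f r) = 1 := by
  let e : R' ≃+* f.range := RingEquiv.ofBijective f.rangeRestrict
    ⟨fun a b h => hf (congrArg Subtype.val h), f.rangeRestrict_surjective⟩
  have hI : m.comap (e.symm : f.range →+* R') ≠ ⊤ := Ideal.comap_ne_top _ hm.ne_top
  obtain ⟨B, hB1, hB2⟩ := Ideal.image_subset_nonunits_valuationSubring
    (m.comap (e.symm : f.range →+* R')) hI
  have h1 : ∀ r, B.valuation (f r) ≤ 1 := fun r =>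
    (B.valuation_le_one_iff _).2 (hB1 ⟨r, rfl⟩)
  have h2 : ∀ r ∈ m, B.valuation (f r) < 1 := by
    intro r hr
    have : f r ∈ B.nonunits := by
      apply hB2
      refine ⟨e r, ?_, rfl⟩
      show e.symm (e r) ∈ m
      rwa [RingEquiv.symm_apply_apply]
    exact (ValuationSubring.mem_nonunits_iff B).1 this
  refine ⟨B, h1, h2, fun r hr => ?_⟩
  obtain ⟨y, i, hi, hyi⟩ := hm.exists_inv hr
  have h3 : f y * f r = 1 - f i := by
    rw [← map_mul, ← map_one f, ← hyi, map_add]
    ring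
  have h4 : B.valuation (1 - f i) = 1 := by
    have := Valuation.map_sub_eq_of_lt_left B.valuation (x := 1) (y := f i)
      (by rw [map_one]; exact h2 i hi)
    rw [map_one] at this
    exact this
  have h5 : B.valuation (f y) * B.valuation (f r) = 1 := by
    rw [← map_mul, h3, h4]
  refine le_antisymm (h1 r) ?_
  rw [← h5]
  calc B.valuation (f y) * B.valuation (f r) ≤ 1 * B.valuation (f r) := mul_le_mul' (h1 y) le_rfl
    _ = _ := one_mul _

end Pool.Agent.N803.PM
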