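import Pool.Agent.N803.PM.FinMA

/-!
# Finiteness over extensions of `k(t)`, part B: the height of an element of a Galois extension
-/

set_option autoImplicit false
set_option linter.all false

open Polynomial

namespace Pool.Agent.N803.PM

section glob

variable {k K M : Type} [Field k] [Field K] [Algebra k[X] K] [IsFractionRing k[X] K] [Field M]
  [Algebra K M] [FiniteDimensional K M] [IsGalois K M]

/-- The product of the `X - σ x`. -/
noncomputable def FF (K : Type) {M : Type} [Field K] [Field M] [Algebra K M]
    [FiniteDimensional K M] (x : M) : M[X] :=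
  ∏ σ : M ≃ₐ[K] M, (X - C (σ x))

theorem FF_monic (x : M) : (FF K x).Monic := monic_prod_of_monic _ _ fun σ _ => monic_X_sub_C _

theorem FF_natDegree (x : M) : (FF K x).natDegree = Fintype.card (M ≃ₐ[K] M) := by
  unfold FF
  rw [natDegree_prod_of_monic _ _ fun σ _ => monic_X_sub_C _]
  simp

theorem FF_root (x : M) : (FF K x).eval x = 0 := by
  unfold FF
  rw [eval_prod]
  exact Finset.prod_eq_zero (Finset.mem_univ (1 : M ≃ₐ[K] M)) (by simp)

theorem FF_map (x : M) (τ : M ≃ₐ[K] M) : (FF K x).map (τ : M →+* M) = FF K x := by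
  unfold FF
  rw [Polynomial.map_prod]
  refine Fintype.prod_equiv (Equiv.mulLeft τ) _ _ fun σ => ?_
  rw [Polynomial.map_sub, map_X, map_C]
  rfl

/-- The inclusion of `k[X]`. -/
noncomputable def inc (k K M : Type) [Field k] [Field K] [Algebra k[X] K] [Field M]
    [Algebra K M] : k[X] →+* M := (algebraMap K M).comp (algebraMap k[X] K)

theorem inc_inj : Function.Injective (inc k K M) :=
  (algebraMap K M).injective.comp (IsFractionRing.injective k[X] K)

theorem exists_FK (x : M) : ∃ F : K[X], F.map (algebraMap K M) = FF K x := by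
  have h : ∀ i, ∃ a : K, algebraMap K M a = (FF K x).coeff i := by
    intro i
    have := (IsGalois.mem_range_algebraMap_iff_fixed (F := K) ((FF K x).coeff i)).2 (by
      intro τ
      have h1 := congrArg (fun p : M[X] => p.coeff i) (FF_map x τ)
      simpa using h1)
    exact this
  choose a ha using h
  refine ⟨∑ i ∈ Finset.range ((FF K x).natDegree + 1), C (a i) * X ^ i, ?_⟩
  rw [Polynomial.map_sum]
  conv_rhs => rw [(FF K x).as_sum_range_C_mul_X_pow]
  refine Finset.sum_congr rfl fun i _ => ?_
  rw [Polynomial.map_mul, map_C, Polynomial.map_pow, map_X, ha]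

theorem exists_rep (x : M) : ∃ (c : K) (P : k[X][X]), c ≠ 0 ∧ P.IsPrimitive ∧
    P.map (inc k K M) = C (algebraMap K M c) * FF K x := by
  classical
  obtain ⟨F, hF⟩ := exists_FK (K := K) x
  have hF0 : F ≠ 0 := by
    rintro rfl
    rw [Polynomial.map_zero] at hF
    exact (FF_monic (K := K) x).ne_zero hF.symm
  letI : NormalizedGCDMonoid k[X] :=
    Classical.choice (inferInstance : Nonempty (NormalizedGCDMonoid k[X]))
  obtain ⟨b, hb, hbF⟩ := IsLocalization.integerNormalization_spec (nonZeroDivisors k[X]) F
  set G := IsLocalization.integerNormalization (nonZeroDivisors k[X]) F with hG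
  have hb0 : b ≠ 0 := nonZeroDivisors.ne_zero hb
  have hbK : algebraMap k[X] K b ≠ 0 := by
    simpa using hb0
  have hbF' : G.map (algebraMap k[X] K) = C (algebraMap k[X] K b) * F := by
    rw [hbF]
    ext i
    simp [Algebra.smul_def]
  have hG0 : G ≠ 0 := by
    intro h0
    rw [h0, Polynomial.map_zero] at hbF'
    exact mul_ne_zero (by simpa using hb0) hF0 hbF'.symm
  have hcont : G.content ≠ 0 := by rwa [Ne, content_eq_zero_iff]
  have hcK : algebraMap k[X] K G.content ≠ 0 := by simpa using hcont
  refine ⟨algebraMap k[X] K b / algebraMap k[X] K G.content, G.primPart,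
    div_ne_zero hbK hcK, G.isPrimitive_primPart, ?_⟩
  have h1 : (G.primPart.map (algebraMap k[X] K)) =
      C (algebraMap k[X] K b / algebraMap k[X] K G.content) * F := by
    have h2 : C (algebraMap k[X] K G.content) * (G.primPart.map (algebraMap k[X] K)) =
        C (algebraMap k[X] K b) * F := by
      rw [← hbF']
      conv_rhs => rw [G.eq_C_content_mul_primPart]
      rw [Polynomial.map_mul, map_C]
    have h3 : C (algebraMap k[X] K G.content) ≠ 0 := by simpa using hcont
    apply mul_left_cancel₀ h3
    rw [h2, ← mul_assoc, ← C_mul, mul_div_cancel₀ _ hcK]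
  have h2 := congrArg (Polynomial.map (algebraMap K M)) h1
  rw [Polynomial.map_map, Polynomial.map_mul, map_C, hF] at h2
  exact h2

/-- The constant and the primitive polynomial belonging to `x`. -/
noncomputable def cc (k K : Type) {M : Type} [Field k] [Field K] [Algebra k[X] K]
    [IsFractionRing k[X] K] [Field M] [Algebra K M] [FiniteDimensional K M] [IsGalois K M]
    (x : M) : K := (exists_rep (k := k) (K := K) x).choose

noncomputable def PP (k K : Type) {M : Type} [Field k] [Field K] [Algebra k[X] K]
    [IsFractionRing k[X] K] [Field M] [Algebra K M] [FiniteDimensional K M] [IsGalois K M]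
    (x : M) : k[X][X] := (exists_rep (k := k) (K := K) x).choose_spec.choose

theorem cc_ne (x : M) : cc k K x ≠ 0 := (exists_rep (k := k) (K := K) x).choose_spec.choose_spec.1

theorem PP_prim (x : M) : (PP k K x).IsPrimitive :=
  (exists_rep (k := k) (K := K) x).choose_spec.choose_spec.2.1

theorem PP_map (x : M) : (PP k K x).map (inc k K M) = C (algebraMap K M (cc k K x)) * FF K x :=
  (exists_rep (k := k) (K := K) x).choose_spec.choose_spec.2.2

theorem PP_ne (x : M) : PP k K x ≠ 0 := (PP_prim x).ne_zero

/-- The height of `x`. -/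
noncomputable def HH (k K : Type) {M : Type} [Field k] [Field K] [Algebra k[X] K]
    [IsFractionRing k[X] K] [Field M] [Algebra K M] [FiniteDimensional K M] [IsGalois K M]
    (x : M) : ℕ := (PP k K x).support.sup fun i => ((PP k K x).coeff i).natDegree

theorem coeff_le (x : M) (i : ℕ) : ((PP k K x).coeff i).natDegree ≤ HH k K x := by
  by_cases h : i ∈ (PP k K x).support
  · exact Finset.le_sup (f := fun i => ((PP k K x).coeff i).natDegree) h
  · rw [notMem_support_iff.1 h, natDegree_zero]
    exact Nat.zero_le _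

theorem PP_natDegree (x : M) : (PP k K x).natDegree = Fintype.card (M ≃ₐ[K] M) := by
  rw [← natDegree_map_eq_of_injective (inc_inj (k := k) (K := K) (M := M)), PP_map,
    natDegree_C_mul (by simpa using cc_ne x), FF_natDegree]

theorem PP_root (x : M) : ((PP k K x).map (inc k K M)).eval x = 0 := by
  rw [PP_map, eval_mul, FF_root, mul_zero]

/-- There are only finitely many elements of bounded height. -/
theorem HH_fin [Finite k] (B : ℕ) : {x : M | HH k K x ≤ B}.Finite := by
  classical
  have hS : {p : k[X] | p.natDegree ≤ B}.Finite := by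
    apply (Set.finite_range (fun c : Fin (B + 1) → k => ∑ i, C (c i) * X ^ (i : ℕ))).subset
    intro p hp
    refine ⟨fun i => p.coeff i, ?_⟩
    show ∑ i : Fin (B + 1), C (p.coeff i) * X ^ (i : ℕ) = p
    rw [Fin.sum_univ_eq_sum_range (fun i => C (p.coeff i) * X ^ i)]
    exact (p.as_sum_range_C_mul_X_pow' (Nat.lt_succ_of_le hp)).symm
  have hfs : Finite {p : k[X] | p.natDegree ≤ B} := hS.to_subtype
  set n := Fintype.card (M ≃ₐ[K] M) with hn
  have hT : {P : k[X][X] | P.natDegree ≤ n ∧ ∀ i, (P.coeff i).natDegree ≤ B}.Finite := by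
    apply (Set.finite_range (fun c : Fin (n + 1) → {p : k[X] | p.natDegree ≤ B} =>
      ∑ i, C ((c i : k[X])) * X ^ (i : ℕ))).subset
    intro P hP
    refine ⟨fun i => ⟨P.coeff i, hP.2 i⟩, ?_⟩
    show ∑ i : Fin (n + 1), C (P.coeff i) * X ^ (i : ℕ) = P
    rw [Fin.sum_univ_eq_sum_range (fun i => C (P.coeff i) * X ^ i)]
    exact (P.as_sum_range_C_mul_X_pow' (Nat.lt_succ_of_le hP.1)).symm
  have hU : (⋃ P ∈ {P : k[X][X] | P.natDegree ≤ n ∧ ∀ i, (P.coeff i).natDegree ≤ B},
      ({y : M | y ∈ (P.map (inc k K M)).roots} : Set M)).Finite := by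
    apply hT.biUnion
    intro P _
    apply ((P.map (inc k K M)).roots.toFinset.finite_toSet).subset
    intro y hy
    simpa using hy
  apply hU.subset
  intro x hx
  rw [Set.mem_iUnion₂]
  refine ⟨PP k K x, ⟨(PP_natDegree x).le, fun i => (coeff_le x i).trans hx⟩, ?_⟩
  show x ∈ ((PP k K x).map (inc k K M)).roots
  rw [mem_roots']
  refine ⟨?_, PP_root x⟩
  rw [Polynomial.map_ne_zero_iff (inc_inj (k := k) (K := K) (M := M))]
  exact PP_ne x

/-! ### Places -/

/-- an element of `K` which is integral at all finite places is a polynomial -/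
theorem poly_of_finite (y : K) (h : ∀ B : ValuationSubring M,
    (∀ r : k[X], B.valuation (inc k K M r) ≤ 1) → (∀ x : M, GN B.valuation
      ((PP k K x).map (inc k K M)) 1) → B.valuation (algebraMap K M y) ≤ 1) :
    ∃ e : k[X], algebraMap k[X] K e = y := by
  classical
  obtain ⟨a, b, hb0, hab, hy⟩ : ∃ a b : k[X], b ≠ 0 ∧ IsCoprime a b ∧
      algebraMap k[X] K a / algebraMap k[X] K b = y :=
    ⟨IsFractionRing.num k[X] y, (IsFractionRing.den k[X] y : k[X]),
      nonZeroDivisors.coe_ne_zero _, (IsFractionRing.num_den_reduced k[X] y).isCoprime,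
      IsFractionRing.mk'_num_den' k[X] y⟩
  have hbK : algebraMap k[X] K b ≠ 0 := by simpa using hb0
  by_cases hbu : IsUnit b
  · obtain ⟨u, hu⟩ := hbu
    refine ⟨a * ((u⁻¹ : k[X]ˣ) : k[X]), ?_⟩
    rw [← hy, eq_div_iff hbK, ← map_mul, mul_assoc, ← hu, Units.inv_mul, mul_one]
  · exfalso
    obtain ⟨m, hm, hbm⟩ := exists_max_ideal_of_mem_nonunits hbu
    obtain ⟨B, h1, h2, h3⟩ := exists_val (inc k K M) inc_inj m hm
    have ham : a ∉ m := by
      intro ha
      apply hm.ne_top
      rw [Ideal.eq_top_iff_one]
      obtain ⟨s, t, hst⟩ := hab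
      rw [← hst]
      exact m.add_mem (m.mul_mem_left _ ha) (m.mul_mem_left _ hbm)
    have h4 := h B h1 (by
      intro x
      refine ⟨fun i => by rw [coeff_map]; exact h1 _, ?_⟩
      by_contra hcon
      push Not at hcon
      have hall : ∀ i, (PP k K x).coeff i ∈ m := by
        intro i
        by_contra hi
        apply hcon i
        rw [coeff_map]
        exact h3 _ hi
      obtain ⟨g, hg⟩ := (IsPrincipalIdealRing.principal m).principal
      have hg' : ∀ i, g ∣ (PP k K x).coeff i := by
        intro i
        have := hall i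
        rw [hg] at this
        exact (Ideal.mem_span_singleton).1 this
      have hgu : IsUnit g := (PP_prim x) g ((C_dvd_iff_dvd_coeff _ _).2 hg')
      apply hm.ne_top
      rw [Ideal.eq_top_iff_one, hg]
      exact (Ideal.mem_span_singleton).2 (hgu.dvd))
    have h5 : B.valuation (inc k K M a) = B.valuation (algebraMap K M y) *
        B.valuation (inc k K M b) := by
      rw [← map_mul]
      congr 1
      show algebraMap K M (algebraMap k[X] K a) = algebraMap K M y * algebraMap K M (algebraMap k[X] K b)
      rw [← map_mul, ← hy, div_mul_cancel₀ _ hbK]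
    rw [h3 a ham] at h5
    have h6 := h2 b hbm
    have h7 : B.valuation (algebraMap K M y) * B.valuation (inc k K M b) < 1 := by
      calc _ ≤ 1 * B.valuation (inc k K M b) := mul_le_mul' h4 le_rfl
        _ < 1 := by rwa [one_mul]
    rw [← h5] at h7
    exact lt_irrefl _ h7

/-- the infinite place -/
theorem inf_place : ∃ B : ValuationSubring M, 1 < B.valuation (inc k K M X) ∧
    ∀ a : k[X], a ≠ 0 → B.valuation (inc k K M a) = B.valuation (inc k K M X) ^ a.natDegree := by
  classical
  set t : M := inc k K M X with ht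
  have ht0 : t ≠ 0 := by
    rw [ht, Ne, map_eq_zero_iff _ inc_inj]
    exact X_ne_zero
  let ι0 : k →+* M := (inc k K M).comp C
  let f : k[X] →+* M := eval₂RingHom ι0 t⁻¹
  have hfX : f X = t⁻¹ := by simp [f]
  have hfC : ∀ c, f (C c) = inc k K M (C c) := by intro c; simp [f, ι0]
  have hev : ∀ a : k[X], inc k K M a = eval₂ ι0 t a := by
    intro a
    conv_lhs => rw [a.as_sum_range_C_mul_X_pow]
    rw [map_sum, eval₂_eq_sum_range]
    refine Finset.sum_congr rfl fun i _ => ?_
    rw [map_mul, map_pow]
    rfl
  -- the reversed polynomial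
  have hrev : ∀ a : k[X], t ^ a.natDegree * f a.reverse = inc k K M a := by
    intro a
    have e1 : f a.reverse = eval₂ ι0 t⁻¹ a.reverse := rfl
    rw [e1, hev a]
    letI : Invertible t := invertibleOfNonzero ht0
    have := eval₂_reverse_mul_pow ι0 t a
    rw [invOf_eq_inv] at this
    rw [mul_comm]
    exact this
  have hfinj : Function.Injective f := by
    rw [injective_iff_map_eq_zero]
    intro a ha
    by_contra ha0
    letI : Invertible t := invertibleOfNonzero ht0
    have h1 := eval₂_reflect_mul_pow ι0 t a.natDegree (reflect a.natDegree a)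
      (natDegree_reflect_le.trans (max_le le_rfl le_rfl))
    rw [reflect_reflect, invOf_eq_inv] at h1
    have h2 : eval₂ ι0 t⁻¹ a = 0 := ha
    rw [h2, zero_mul, ← hev] at h1
    have h3 : reflect a.natDegree a = 0 := inc_inj (k := k) (K := K) (M := M) (by
      rw [← h1, map_zero])
    exact ha0 (reflect_eq_zero_iff.1 h3)
  have hm : (Ideal.span {(X : k[X])}).IsMaximal :=
    PrincipalIdealRing.isMaximal_of_irreducible irreducible_X
  obtain ⟨B, h1, h2, h3⟩ := exists_val f hfinj _ hm
  have hX := h2 X (Ideal.subset_span rfl)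
  rw [hfX, map_inv₀] at hX
  have htv : 1 < B.valuation t := by
    have h0 : 0 < B.valuation t := zero_lt_iff.2 ((Valuation.ne_zero_iff _).2 ht0)
    exact (inv_lt_one₀ h0).1 hX
  refine ⟨B, htv, fun a ha => ?_⟩
  rw [← hrev a, map_mul, map_pow]
  have h4 : a.reverse ∉ Ideal.span {(X : k[X])} := by
    rw [Ideal.mem_span_singleton, X_dvd_iff, coeff_zero_reverse]
    simpa using ha
  rw [h3 _ h4, mul_one]

end glob

end Pool.Agent.N803.PM
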