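import Mathlib

/-!
# Descent of squares along a quadratic extension

Preparations for `QS.lean`: square roots generating a quadratic extension, the conjugation, and the
norm after a base change.
-/

set_option autoImplicit false
set_option linter.all false

open Module

namespace Pool.Agent.N803.PM

/-- In a two-dimensional algebra every element is a combination of `1` and a given element which is
not a scalar. -/
theorem two_span (K M : Type) [Field K] [Field M] [Algebra K M] (h : finrank K M = 2) (b : M)
    (hb : ∀ c : K, algebraMap K M c ≠ b) (t : M) :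
    ∃ p q : K, t = algebraMap K M p + algebraMap K M q * b := by
  have hli : LinearIndependent K ![(1 : M), b] := by
    rw [LinearIndependent.pair_iff]
    intro s r hsr
    have hr : r = 0 := by
      by_contra hr
      apply hb (-(s / r))
      rw [Algebra.smul_def, Algebra.smul_def, mul_one] at hsr
      have hr' : algebraMap K M r ≠ 0 := by
        simpa using hr
      rw [map_neg, map_div₀]
      field_simp
      linear_combination -hsr
    subst hr
    refine ⟨?_, rfl⟩
    rw [zero_smul, add_zero, Algebra.smul_def, mul_one] at hsr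
    simpa using hsr
  have hspan := hli.span_eq_top_of_card_eq_finrank (by rw [h]; simp)
  have ht : t ∈ Submodule.span K (Set.range ![(1 : M), b]) := by rw [hspan]; trivial
  rw [Matrix.range_cons, Matrix.range_cons, Matrix.range_empty, Set.union_empty,
    Set.singleton_union, Submodule.mem_span_pair] at ht
  obtain ⟨p, q, hpq⟩ := ht
  refine ⟨p, q, ?_⟩
  rw [← hpq, Algebra.smul_def, Algebra.smul_def, mul_one]

/-- A quadratic extension is generated by a square root. -/
theorem exists_sqrt (K M : Type) [Field K] [Field M] [Algebra K M] (h2 : (2 : K) ≠ 0)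
    (h : finrank K M = 2) : ∃ (m : K) (b : M), b ^ 2 = algebraMap K M m ∧
      ∀ c : K, algebraMap K M c ≠ b := by
  have hne : ∃ a : M, ∀ c : K, algebraMap K M c ≠ a := by
    by_contra hcon
    push Not at hcon
    have : finrank K M = 1 := by
      rw [finrank_eq_one_iff' ]
      refine ⟨1, one_ne_zero, fun w => ?_⟩
      obtain ⟨c, hc⟩ := hcon w
      exact ⟨c, by rw [Algebra.smul_def, mul_one, hc]⟩
    omega
  obtain ⟨a, ha⟩ := hne
  obtain ⟨q, p, hpq⟩ := two_span K M h a ha (a ^ 2)
  refine ⟨4 * q + p ^ 2, 2 * a - algebraMap K M p, ?_, ?_⟩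
  · have h4 : algebraMap K M 4 = 4 := by simpa using map_ofNat (algebraMap K M) 4
    rw [map_add, map_mul, map_pow, h4]
    linear_combination 4 * hpq
  · intro c hc
    apply ha ((c + p) / 2)
    have h2' : algebraMap K M 2 ≠ 0 := by
      simpa using (map_ne_zero (algebraMap K M)).2 h2
    have h22 : algebraMap K M 2 = 2 := by simpa using map_ofNat (algebraMap K M) 2
    rw [map_div₀, map_add, hc, h22]
    rw [h22] at h2'
    field_simp
    ring

/-- The conjugation of a quadratic extension. -/
theorem exists_conj (L Ω : Type) [Field L] [Field Ω] [Algebra L Ω] (h2 : (2 : L) ≠ 0)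
    (h : finrank L Ω = 2) (m : L) (ω : Ω) (hω : ω ^ 2 = algebraMap L Ω m)
    (hn : ∀ c : L, algebraMap L Ω c ≠ ω) :
    ∃ σ : Ω ≃ₐ[L] Ω, σ ω = - ω ∧ (∀ x : Ω, algebraMap L Ω (Algebra.norm L x) = x * σ x) ∧
      ∀ x : Ω, σ x = x → ∃ l : L, algebraMap L Ω l = x := by
  classical
  haveI : Algebra.IsQuadraticExtension L Ω := ⟨h⟩
  haveI : FiniteDimensional L Ω := FiniteDimensional.of_finrank_pos (by omega)
  have hω0 : ω ≠ 0 := by
    rintro rfl
    exact hn 0 (map_zero _)
  have hm0 : m ≠ 0 := by
    rintro rfl
    rw [map_zero] at hω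
    exact hω0 (pow_eq_zero_iff two_ne_zero |>.1 hω)
  have htop : IntermediateField.adjoin L {ω} = ⊤ := by
    rw [eq_top_iff]
    intro x _
    obtain ⟨p, q, hx⟩ := two_span L Ω h ω hn x
    rw [hx]
    exact add_mem (IntermediateField.algebraMap_mem _ _) (mul_mem
      (IntermediateField.algebraMap_mem _ _) (IntermediateField.mem_adjoin_simple_self L ω))
  have hsepω : IsSeparable L ω := by
    have hs : (Polynomial.X ^ 2 - Polynomial.C m : Polynomial L).Separable :=
      Polynomial.separable_X_pow_sub_C m (by exact_mod_cast h2) hm0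
    exact hs.of_dvd (minpoly.dvd L ω (by simp [hω]))
  haveI : Algebra.IsSeparable L Ω := by
    have h1 : Algebra.IsSeparable L (IntermediateField.adjoin L {ω}) :=
      (IntermediateField.isSeparable_adjoin_simple_iff_isSeparable L Ω).2 hsepω
    rw [htop] at h1
    exact (AlgEquiv.Algebra.isSeparable_iff (IntermediateField.topEquiv (F := L) (E := Ω))).1 h1
  haveI : IsGalois L Ω := {}
  have hcard : Nat.card (Ω ≃ₐ[L] Ω) = 2 := by rw [IsGalois.card_aut_eq_finrank, h]
  have hcard' : Fintype.card (Ω ≃ₐ[L] Ω) = 2 := by rw [← Nat.card_eq_fintype_card, hcard]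
  obtain ⟨σ, hσ⟩ : ∃ σ : Ω ≃ₐ[L] Ω, σ ≠ 1 := by
    haveI : Nontrivial (Ω ≃ₐ[L] Ω) := Fintype.one_lt_card_iff_nontrivial.1 (by omega)
    exact exists_ne 1
  have huniv : (Finset.univ : Finset (Ω ≃ₐ[L] Ω)) = {1, σ} := by
    symm
    apply Finset.eq_univ_of_card
    rw [Finset.card_pair (Ne.symm hσ), hcard']
  refine ⟨σ, ?_, ?_, ?_⟩
  · have h1 : (σ ω) ^ 2 = ω ^ 2 := by
      rw [← map_pow, hω, AlgEquiv.commutes]
    rcases sq_eq_sq_iff_eq_or_eq_neg.1 h1 with h3 | h3
    · exfalso
      apply hσ
      ext x
      obtain ⟨p, q, hx⟩ := two_span L Ω h ω hn x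
      rw [hx]
      simp [h3]
    · exact h3
  · intro x
    rw [Algebra.norm_eq_prod_automorphisms, huniv, Finset.prod_pair (Ne.symm hσ)]
    rfl
  · intro x hx
    have := (IsGalois.mem_range_algebraMap_iff_fixed (F := L) x).2 (by
      intro f
      have hf : f ∈ (Finset.univ : Finset (Ω ≃ₐ[L] Ω)) := Finset.mem_univ f
      rw [huniv, Finset.mem_insert, Finset.mem_singleton] at hf
      rcases hf with rfl | rfl
      · rfl
      · exact hx)
    exact this

/-- The norm commutes with the base change. -/
theorem norm_bc (K L M Ω : Type) [Field K] [Field L] [Field M] [Field Ω] [Algebra K L]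
    [Algebra K M] [Algebra L Ω] [Algebra M Ω] [Algebra K Ω] [IsScalarTower K L Ω]
    [IsScalarTower K M Ω] (hd : finrank K L = finrank M Ω) (hpos : 0 < finrank K L) (β : M)
    (hs : ∀ x : Ω, ∃ u v : L, x = algebraMap L Ω u + algebraMap L Ω v * algebraMap M Ω β)
    (w : L) : Algebra.norm M (algebraMap L Ω w) = algebraMap K M (Algebra.norm K w) := by
  haveI : FiniteDimensional K L := FiniteDimensional.of_finrank_pos hpos
  haveI : FiniteDimensional M Ω := FiniteDimensional.of_finrank_pos (hd ▸ hpos)
  let b := finBasis K L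
  have hL : ∀ u : L, algebraMap L Ω u = ∑ i, algebraMap M Ω (algebraMap K M (b.repr u i)) *
      algebraMap L Ω (b i) := by
    intro u
    conv_lhs => rw [← b.sum_repr u]
    rw [map_sum]
    refine Finset.sum_congr rfl fun i _ => ?_
    rw [Algebra.smul_def, map_mul, ← IsScalarTower.algebraMap_apply K L Ω,
      ← IsScalarTower.algebraMap_apply K M Ω]
  have hmem : ∀ u : L, algebraMap L Ω u ∈
      Submodule.span M (Set.range fun i => algebraMap L Ω (b i)) := by
    intro u
    rw [hL u]
    refine Submodule.sum_mem _ fun i _ => ?_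
    rw [← Algebra.smul_def]
    exact Submodule.smul_mem _ _ (Submodule.subset_span ⟨i, rfl⟩)
  have htop : ⊤ ≤ Submodule.span M (Set.range fun i => algebraMap L Ω (b i)) := by
    intro x _
    obtain ⟨u, v, rfl⟩ := hs x
    refine add_mem (hmem u) ?_
    rw [mul_comm, ← Algebra.smul_def]
    exact Submodule.smul_mem _ _ (hmem v)
  have hli : LinearIndependent M (fun i => algebraMap L Ω (b i)) :=
    linearIndependent_of_top_le_span_of_card_eq_finrank htop (by simp [hd])
  let c : Basis (Fin (finrank K L)) M Ω := Basis.mk hli htop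
  have hc : ∀ i, c i = algebraMap L Ω (b i) := fun i => by simp [c]
  rw [Algebra.norm_eq_matrix_det c, Algebra.norm_eq_matrix_det b]
  have : Algebra.leftMulMatrix c (algebraMap L Ω w) =
      (algebraMap K M).mapMatrix (Algebra.leftMulMatrix b w) := by
    ext i j
    rw [Algebra.leftMulMatrix_eq_repr_mul, RingHom.mapMatrix_apply, Matrix.map_apply,
      Algebra.leftMulMatrix_eq_repr_mul, hc, ← map_mul, hL (w * b j)]
    have : ∀ k, algebraMap M Ω (algebraMap K M (b.repr (w * b j) k)) * algebraMap L Ω (b k) =
        (algebraMap K M (b.repr (w * b j) k)) • c k := fun k => by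
      rw [hc, Algebra.smul_def]
    rw [Finset.sum_congr rfl fun k _ => this k, map_sum, Finsupp.finset_sum_apply]
    simp only [map_smul, Basis.repr_self, Finsupp.smul_apply, Finsupp.single_apply, smul_eq_mul,
      mul_ite, mul_one, mul_zero, Finset.sum_ite_eq', Finset.mem_univ, if_true]
  rw [this, ← RingHom.map_det]

end Pool.Agent.N803.PM
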