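import Pool.Agent.N874.PM.Stm

/-!
# Project PM, part TCH: choice of residues

The map `z ↦ -(z ^ 3 - z)` on the finite ring `k[X] / P` is not injective (`0` and `1` have the same
image), hence not surjective.
-/

set_option autoImplicit false
set_option linter.all false

open Polynomial

namespace Pool.Agent.N803.PM

theorem exists_res {k : Type} [Field k] [Finite k] (P : k[X]) (hP : P.Monic) (hi : Irreducible P) :
    ∃ b : k[X], ∀ z : k[X], ¬ P ∣ z ^ 3 + (-1) * z + b := by
  haveI : Fact (Irreducible P) := ⟨hi⟩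
  haveI : Module.Finite k (AdjoinRoot P) := hP.finite_adjoinRoot
  haveI : Finite (AdjoinRoot P) := Module.finite_of_finite k
  have hns : ¬ Function.Surjective (fun z : AdjoinRoot P => -(z ^ 3 - z)) := by
    intro hs
    have hinj := Finite.injective_iff_surjective.2 hs
    have h01 : (0 : AdjoinRoot P) = 1 := hinj (by simp)
    exact zero_ne_one h01
  rw [Function.Surjective] at hns
  push Not at hns
  obtain ⟨b, hb⟩ := hns
  obtain ⟨b, rfl⟩ := AdjoinRoot.mk_surjective b
  refine ⟨b, fun z hz => hb (AdjoinRoot.mk P z) ?_⟩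
  have h0 : AdjoinRoot.mk P (z ^ 3 + (-1) * z + b) = 0 := AdjoinRoot.mk_eq_zero.2 hz
  rw [map_add, map_add, map_mul, map_pow, map_neg, map_one] at h0
  linear_combination -h0

theorem tch : Pool.Agent.N874.PM.S_TCH := by
  intro k _ _ h6 T hT
  classical
  refine ⟨fun _ => -1, fun P => if h : P ∈ T then (exists_res P (hT P h).1 (hT P h).2).choose else 0,
    fun P hP => ⟨(hT P hP).1, (hT P hP).2, ?_⟩⟩
  intro z
  simp only [dif_pos hP]
  exact (exists_res P (hT P hP).1 (hT P hP).2).choose_spec z

end Pool.Agent.N803.PM
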